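import Pool.Agent.Work.MP_3b7449_co.TP.Final

/-!
# MP_3b7449_co: 2-plane graphs whose cells have at most five sides

`PlaneMap D` is a connected plane multigraph (darts, faces, vertices, Euler's formula), `M.Edge` the
edges of the drawn graph obtained from it by drawing all diagonals in its faces of length 4 and 5,
`M.Cross` the crossings; see `Pool/Agent/Work/MP_3b7449_co/TP/Plane.lean`.
-/

namespace Pool.Agent.Results.MP_3b7449_co.FiveSidedCells

open TwoPlane

/-- Let `M` be a connected loopless plane multigraph all of whose faces have length at most 5, and
let `G` be `M` together with all the diagonals of its faces of length 4 and 5. Every edge of `G` is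
crossed by at most two others, and if all faces of `M` have length 5 then `G` has `5 n - 10` edges.
The edges of `G` can be coloured with the colours 0, 1, 2 such that edges of the same colour never
cross, all edges of `M` have colour 0, and the edges of colour 1, and those of colour 2, form a
forest, which stays a forest after adding the prescribed edge of the dart `r` of `M`. -/
theorem result {D : Type} [Fintype D] [DecidableEq D] (M : PlaneMap D) (hl : M.NoLoop)
    (h5 : ∀ d, M.len d ≤ 5) (r : D) :
    (∀ e, {e' | M.Cross e e'}.Finite ∧ {e' | M.Cross e e'}.ncard ≤ 2) ∧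
    ((∀ d, M.len d = 5) → Nat.card M.Edge + 10 = 5 * Nat.card M.Vert) ∧
    ∃ κ : M.Edge → Fin 3,
      (∀ e e', M.Cross e e' → κ e ≠ κ e') ∧
      (∀ s : M.Side, κ (Sum.inl s) = 0) ∧
      M.Forest ({e | κ e = 1} ∪ {M.side r}) ∧
      M.Forest ({e | κ e = 2} ∪ {M.side r}) :=
  final M hl h5 r

end Pool.Agent.Results.MP_3b7449_co.FiveSidedCells
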